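import Pool.Agent.Q104.PH.NonAm

set_option autoImplicit false

/-!
# Non-amenable groups with property (PH) from focal actions

For every finitely generated group `A` the wreath product of `A` with the integers acts on two
hyperbolic graphs such that the diagonal action is proper.
-/

namespace Pool.Agent.Results.MP_d5cca6_al.WreathPH

open Pool.Agent.Q104.HS Pool.Agent.Q104.PH

/-- For every nontrivial finitely generated group `A` the restricted wreath product of `A` with the
group of integers has property (PH) from focal and lineal actions.  In particular there is a
finitely generated non-amenable group with this property. -/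
theorem result :
    (∀ (A : Type) [Group A] [Group.FG A] [Nontrivial A], PH (Wr A)) ∧
    (∃ (G : Type) (_ : Group G), Group.FG G ∧ PH G ∧ ¬ Amenable G) :=
  ⟨fun A _ _ _ => ph_wreath A,
    ⟨Wr F2, inferInstance, Wr.fg, ph_wreath F2, wr_not_amenable⟩⟩

end Pool.Agent.Results.MP_d5cca6_al.WreathPH
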